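import Pool.Agent.R196.BB.AsmC
import Pool.Agent.R196.BB.RS
import Pool.Agent.R196.BB.SF
import Pool.Agent.R196.BB.QU
import Pool.Agent.R196.BB.MB
import Pool.Agent.R196.BB.GR

/-!
# The diagonal identity for the Burkholder and the BMO Bellman functions, without continuity

For every `f : ℝ → ℝ` bounded from below (no continuity, measurability or local boundedness is
needed) the Burkholder function of the `±1` transforms and the Bellman function on the unit ball of
BMO satisfy `𝕍(x₁, 0) = 𝔹(x₁, x₁² + 1)` for all `x₁`, as an identity in `[-∞, ∞]`.

The definitions `burkholder` and `bellman` are in `Pool/Agent/R196/BB/Stmt.lean`.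

Idea of the proof.  In the coordinates `p = x₁ + x₂`, `q = x₁ - x₂` diagonal concavity is concavity
in `p` and in `q`.  Let `M(u)` be the set of laws `μ` with mean `u`, second moment `u² + 1` and
`∫ ((x-g)²-1) 1_{x < g-1} dμ ≥ ((g-u)⁺)²`, `∫ ((x-g)²-1) 1_{x > g+1} dμ ≥ ((u-g)⁺)²` for all `g`.
(1) A function with BMO seminorm at most `1`, mean `u` and second moment `u²+1` has its law in `M(u)`
(rising sun lemma); (2) conversely a monotone function whose law is in `M(u)` has BMO seminorm at
most `1`; (3) the supremum of `∫ f dμ` over finitely supported laws is diagonally concave; (4) for a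
symmetric biconcave `W` on the strip and `μ ∈ M(u)` one has `∫ W(x+1,x-1) dμ ≤ W(u,u)`: restrict `W`
to a periodic grid, pass to the minimal biconcave grid function `V` with the same boundary values;
at each node `V` is linear in `p` or in `q`, which makes the jumps of its derivative along a grid
line at least as large as those of a positive combination of the test functions defining `M(u)` with
the same values on the midline.  The masses of this combination are bounded independently of the
grid, so that a fine enough grid handles arbitrary boundary values and arbitrary laws in `M(u)`.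
-/

namespace Pool.Agent.Results.MP_a39268_an.DiagonalIdentity

open Pool.Agent.R196.BB

/-- For every function `f` bounded from below and every `x₁`, `𝕍(x₁,0) = 𝔹(x₁,x₁²+1)`. -/
theorem result (f : ℝ → ℝ) (hf : ∃ m : ℝ, ∀ x, m ≤ f x) (x₁ : ℝ) :
    burkholder f (x₁, 0) = bellman f (x₁, x₁ ^ 2 + 1) := by
  obtain ⟨m, hm⟩ := hf
  exact main gridExists risingSun quantile monoBMO supFinite f m hm x₁

end Pool.Agent.Results.MP_a39268_an.DiagonalIdentity
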